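import Mathlib
import Pool.Agent.Q24.Epi

/-!
# If o-conjugacy is a congruence on a finite semigroup then the quotient is a group
-/

set_option autoImplicit false

namespace Pool.Agent.Results.MP_393150_al.QuotientIsGroup

open Q24.Epi

universe u

/-- `a` and `b` are o-conjugate: there are `g, h` in `S` (no identity adjoined) with
`a g = g b` and `b h = h a`. -/
def OConj {S : Type u} [Semigroup S] (a b : S) : Prop :=
  ∃ g h : S, a * g = g * b ∧ b * h = h * a

/-- The semigroup `T` is a group. -/
def IsGroup (T : Type u) [Semigroup T] : Prop :=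
  ∃ e : T, ∀ x : T, e * x = x ∧ x * e = x ∧ ∃ y : T, x * y = e ∧ y * x = e

/-- The semigroup `T` is cancellative. -/
def IsCancellative (T : Type u) [Semigroup T] : Prop :=
  (∀ x y z : T, x * y = x * z → y = z) ∧ ∀ x y z : T, y * x = z * x → y = z

theorem IsGroup.cancel {T : Type u} [Semigroup T] (h : IsGroup T) : IsCancellative T := by
  obtain ⟨e, he⟩ := h
  constructor
  · intro x y z hxy
    obtain ⟨-, -, w, -, hw⟩ := he x
    rw [← (he y).1, ← (he z).1, ← hw, mul_assoc, mul_assoc, hxy]
  · intro x y z hxy
    obtain ⟨-, -, w, hw, -⟩ := he x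
    rw [← (he y).2.1, ← (he z).2.1, ← hw, ← mul_assoc, ← mul_assoc, hxy]

theorem main {S : Type u} [Semigroup S] [Nonempty S] (hS : IsEpigroup S) (c : Con S)
    (hc : ∀ a b : S, c a b ↔ OConj a b) : IsGroup c.Quotient := by
  have hidem : ∀ e f : S, e * e = e → f * f = f → (e : c.Quotient) = f := by
    intro e f he hf
    rw [Con.eq, hc]
    exact ⟨e * f, f * e, by rw [← mul_assoc, he, mul_assoc, hf],
      by rw [← mul_assoc, hf, mul_assoc, he]⟩
  obtain ⟨n0, e0, y0, h0, -⟩ := hS (Classical.arbitrary S)
  refine ⟨(e0 : c.Quotient), fun x => ?_⟩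
  induction x using Con.induction_on with
  | H a =>
    obtain ⟨n, e, y, hee, hep, hpe, hey, hye, hpy, hyp⟩ := hS a
    have hcomm : a * e = e * a :=
      (comm_of_comm (spow_self_comm a n) hep hpe hpy hyp hey hye).1
    have h1 : (a : c.Quotient) = ((a * e : S) : c.Quotient) := by
      rw [Con.eq, hc]
      exact ⟨e, e, by rw [hcomm, ← mul_assoc, hee], by rw [mul_assoc, hee, hcomm]⟩
    have h2 : (a : c.Quotient) * (e : c.Quotient) = a := by rw [← Con.coe_mul, ← h1]
    have h3 : (e : c.Quotient) * (a : c.Quotient) = a := by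
      rw [← Con.coe_mul, ← hcomm, ← h1]
    rw [hidem e0 e h0 hee]
    refine ⟨h3, h2, ?_⟩
    cases n with
    | zero =>
      refine ⟨(y : c.Quotient), ?_, ?_⟩
      · rw [← Con.coe_mul]; exact congrArg _ hpy
      · rw [← Con.coe_mul]; exact congrArg _ hyp
    | succ n =>
      refine ⟨((spow a n * y : S) : c.Quotient), ?_, ?_⟩
      · rw [← Con.coe_mul, ← mul_assoc, ← spow_self_comm]
        exact congrArg _ hpy
      · have hy : a * y = y * a := (comm_of_comm (spow_self_comm a (n + 1)) hep hpe hpy hyp hey hye).2
        rw [← Con.coe_mul, mul_assoc, ← hy, ← mul_assoc]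
        exact congrArg _ hpy

/-- If `S` is a finite semigroup, or more generally an epigroup, on which o-conjugacy is a
congruence `c`, then the quotient `S / c` is a group; in particular it is cancellative. -/
theorem result : ∀ (S : Type u) [Semigroup S] [Nonempty S], Finite S ∨ IsEpigroup S →
    ∀ c : Con S, (∀ a b : S, c a b ↔ OConj a b) →
      IsCancellative c.Quotient ∧ IsGroup c.Quotient := by
  intro S _ _ hS c hc
  have hE : IsEpigroup S := by
    rcases hS with h | h
    · exact isEpigroup_of_finite
    · exact h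
  exact ⟨(main hE c hc).cancel, main hE c hc⟩

end Pool.Agent.Results.MP_393150_al.QuotientIsGroup
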